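import Pool.Agent.Y690.PP.Stm

set_option autoImplicit false

/-!
Job PP-A2 of helper690: the sum of `N(p)^(-σ)` over the primes of the Gaussian integers.
-/

open Finset

namespace Pool.Agent.Y363.PP

open Pool.Agent.Y690.PP

theorem nm_eq (v : G) : (nm v : ℤ) = v.re * v.re + v.im * v.im := by
  unfold nm
  rw [Int.natAbs_of_nonneg (GaussianInt.norm_nonneg v), Zsqrtd.norm_def]
  ring

theorem nm_mul (v w : G) : nm (v * w) = nm v * nm w := by
  unfold nm
  rw [Zsqrtd.norm_mul, Int.natAbs_mul]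

theorem nm_one : nm (1 : G) = 1 := by
  unfold nm
  simp

theorem nm_prod {ι : Type} (F : Finset ι) (f : ι → G) : nm (∏ i ∈ F, f i) = ∏ i ∈ F, nm (f i) := by
  classical
  induction F using Finset.induction_on with
  | empty => simp [nm_one]
  | insert a s ha ih => rw [prod_insert ha, prod_insert ha, nm_mul, ih]

theorem nm_pos (v : G) (hv : v ≠ 0) : 0 < nm v := by
  unfold nm
  rw [Int.natAbs_pos]
  exact (GaussianInt.norm_pos.2 hv).ne'

/-- the number of lattice points -/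
theorem count (S : Finset G) (k : ℕ) (h : ∀ v ∈ S, nm v < 2 ^ (k + 1)) : #S ≤ 18 * 2 ^ k := by
  classical
  set r := Nat.sqrt (2 ^ (k + 1)) with hr
  have hr1 : 1 ≤ r := by
    rw [hr, Nat.le_sqrt]
    have : 1 ≤ 2 ^ (k + 1) := Nat.one_le_two_pow
    simpa using this
  have hr2 : r * r ≤ 2 ^ (k + 1) := Nat.sqrt_le _
  have hc : ∀ z : ℤ, z * z < 2 ^ (k + 1) → z ∈ Icc (-(r : ℤ)) r := by
    intro z hz
    have h1 : z.natAbs * z.natAbs < 2 ^ (k + 1) := by
      have : ((z.natAbs * z.natAbs : ℕ) : ℤ) < ((2 ^ (k + 1) : ℕ) : ℤ) := by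
        push_cast
        rw [abs_mul_abs_self]
        exact hz
      exact_mod_cast this
    have h2 : z.natAbs ≤ r := by
      rw [hr, Nat.le_sqrt]
      exact h1.le
    rw [mem_Icc]
    constructor <;> omega
  have h1 : #S ≤ #(Icc (-(r : ℤ)) r ×ˢ Icc (-(r : ℤ)) r) := by
    refine Finset.card_le_card_of_injOn (fun v : G => (v.re, v.im)) ?_ ?_
    · intro v hv
      have h2 := h v hv
      have h3 := nm_eq v
      have h4 : (nm v : ℤ) < 2 ^ (k + 1) := by exact_mod_cast h2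
      have h5 : 0 ≤ v.re * v.re := mul_self_nonneg _
      have h6 : 0 ≤ v.im * v.im := mul_self_nonneg _
      simp only [coe_product, Set.mem_prod, mem_coe]
      exact ⟨hc _ (by linarith), hc _ (by linarith)⟩
    · intro v _ v' _ hvv
      simp only [Prod.mk.injEq] at hvv
      exact Zsqrtd.ext hvv.1 hvv.2
  have h2 : #(Icc (-(r : ℤ)) r ×ˢ Icc (-(r : ℤ)) r) = (2 * r + 1) * (2 * r + 1) := by
    rw [card_product, Int.card_Icc]
    have : ((r : ℤ) + 1 - -(r : ℤ)).toNat = 2 * r + 1 := by omega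
    rw [this]
  rw [h2] at h1
  refine h1.trans ?_
  have h3 : (2 * r + 1) * (2 * r + 1) ≤ (3 * r) * (3 * r) := Nat.mul_le_mul (by omega) (by omega)
  refine h3.trans ?_
  calc (3 * r) * (3 * r) = 9 * (r * r) := by ring
    _ ≤ 9 * 2 ^ (k + 1) := Nat.mul_le_mul_left _ hr2
    _ = 18 * 2 ^ k := by rw [pow_succ]; ring

/-- the lattice sum -/
theorem lattice (S : Finset G) (h0 : ∀ v ∈ S, v ≠ 0) (σ : ℝ) (h1 : 1 < σ) (h2 : σ ≤ 2) :
    ∑ v ∈ S, (nm v : ℝ) ^ (-σ) ≤ 36 / (σ - 1) := by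
  classical
  set K := S.sup (fun v => Nat.log 2 (nm v)) + 1 with hK
  have hmaps : ∀ v ∈ S, Nat.log 2 (nm v) ∈ range K := by
    intro v hv
    rw [mem_range, hK]
    have : Nat.log 2 (nm v) ≤ S.sup (fun v => Nat.log 2 (nm v)) :=
      Finset.le_sup (f := fun v => Nat.log 2 (nm v)) hv
    omega
  rw [← Finset.sum_fiberwise_of_maps_to hmaps]
  set ρ : ℝ := (2 : ℝ) ^ (1 - σ) with hρ
  have hρ0 : 0 < ρ := by positivity
  have hρ1 : ρ ≤ 1 - (σ - 1) / 2 := by
    have h3 := _root_.rpow_one_add_le_one_add_mul_self (s := -(1 / 2)) (p := σ - 1) (by norm_num)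
      (by linarith) (by linarith)
    have h4 : (1 + -(1 / 2) : ℝ) ^ (σ - 1) = ρ := by
      rw [hρ, show (1 - σ : ℝ) = -(σ - 1) by ring, Real.rpow_neg (by norm_num),
        ← Real.inv_rpow (by norm_num)]
      norm_num
    rw [h4] at h3
    linarith
  have hfib : ∀ k ∈ range K, ∑ v ∈ S.filter (fun v => Nat.log 2 (nm v) = k), (nm v : ℝ) ^ (-σ) ≤
      18 * ρ ^ k := by
    intro k _
    have h3 : ∀ v ∈ S.filter (fun v => Nat.log 2 (nm v) = k),
        (nm v : ℝ) ^ (-σ) ≤ ((2 : ℝ) ^ k) ^ (-σ) := by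
      intro v hv
      obtain ⟨hvS, hvk⟩ := mem_filter.1 hv
      have h4 : 2 ^ k ≤ nm v := by
        rw [← hvk]
        exact Nat.pow_log_le_self 2 (nm_pos v (h0 v hvS)).ne'
      have h5 : (2 : ℝ) ^ k ≤ nm v := by exact_mod_cast h4
      exact Real.rpow_le_rpow_of_nonpos (by positivity) h5 (by linarith)
    refine (Finset.sum_le_card_nsmul _ _ _ h3).trans ?_
    rw [nsmul_eq_mul]
    have h6 : #(S.filter (fun v => Nat.log 2 (nm v) = k)) ≤ 18 * 2 ^ k := by
      refine count _ k ?_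
      intro v hv
      obtain ⟨hvS, hvk⟩ := mem_filter.1 hv
      rw [← hvk]
      exact Nat.lt_pow_succ_log_self (by norm_num) _
    have h7 : (#(S.filter (fun v => Nat.log 2 (nm v) = k)) : ℝ) ≤ 18 * 2 ^ k := by exact_mod_cast h6
    have h8 : (0 : ℝ) ≤ ((2 : ℝ) ^ k) ^ (-σ) := by positivity
    refine (mul_le_mul_of_nonneg_right h7 h8).trans (le_of_eq ?_)
    have h9 : ρ ^ k = (2 : ℝ) ^ k * ((2 : ℝ) ^ k) ^ (-σ) := by
      rw [hρ, ← Real.rpow_natCast, ← Real.rpow_natCast, ← Real.rpow_mul (by norm_num),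
        ← Real.rpow_mul (by norm_num), ← Real.rpow_add (by norm_num)]
      congr 1
      ring
    rw [h9]
    ring
  refine (Finset.sum_le_sum hfib).trans ?_
  rw [← Finset.mul_sum]
  have h3 : (∑ k ∈ range K, ρ ^ k) * (1 - ρ) ≤ 1 := by
    have h4 := geom_sum_mul_neg ρ K
    rw [h4]
    have : 0 ≤ ρ ^ K := by positivity
    linarith
  have h5 : 0 ≤ ∑ k ∈ range K, ρ ^ k := Finset.sum_nonneg fun _ _ => by positivity
  rw [le_div_iff₀ (by linarith)]
  nlinarith

theorem Prm_one : Prm (1 : G) := by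
  unfold Prm
  simp

theorem t_A2 (h : SFAC) : A2 gN := by
  classical
  refine ⟨Real.log 36 + 36, fun F σ h1 h2 => ?_⟩
  have hgp : ∀ p : Pr, 1 ≤ gN p := fun p => nm_pos p.1 p.2.1.ne_zero
  have hgp' : ∀ p : Pr, (1 : ℝ) ≤ (gN p : ℝ) := fun p => by exact_mod_cast hgp p
  -- the product
  have hprod : ∏ p ∈ F, (1 + (gN p : ℝ) ^ (-σ)) ≤ 36 / (σ - 1) := by
    rw [Finset.prod_one_add]
    have hinj : Set.InjOn (fun A : Finset Pr => ∏ p ∈ A, (p.1 : G)) (F.powerset : Set (Finset Pr)) := by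
      intro A _ A' _ hAA
      have := h.2 1 1 A A' Prm_one Prm_one (by simpa using hAA)
      exact this.2
    have h3 : ∑ A ∈ F.powerset, ∏ p ∈ A, (gN p : ℝ) ^ (-σ) =
        ∑ v ∈ F.powerset.image (fun A : Finset Pr => ∏ p ∈ A, (p.1 : G)), (nm v : ℝ) ^ (-σ) := by
      rw [Finset.sum_image hinj]
      refine Finset.sum_congr rfl fun A _ => ?_
      rw [nm_prod, Nat.cast_prod, ← Real.finsetProd_rpow _ _ (fun p _ => by positivity)]
      rfl
    rw [h3]
    refine lattice _ ?_ σ h1 h2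
    intro v hv
    obtain ⟨A, _, rfl⟩ := mem_image.1 hv
    rw [Finset.prod_ne_zero_iff]
    exact fun p _ => p.2.1.ne_zero
  -- the logarithm
  have hlog : ∀ p ∈ F, (gN p : ℝ) ^ (-σ) ≤ Real.log (1 + (gN p : ℝ) ^ (-σ)) + (gN p : ℝ) ^ (-(2 : ℝ)) := by
    intro p _
    have h3 : 0 < (gN p : ℝ) ^ (-σ) := Real.rpow_pos_of_pos (by linarith [hgp' p]) _
    have h5 := Real.one_sub_inv_le_log_of_pos (show 0 < 1 + (gN p : ℝ) ^ (-σ) by linarith)
    have h6 : ((gN p : ℝ) ^ (-σ)) ^ 2 ≤ (gN p : ℝ) ^ (-(2 : ℝ)) := by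
      rw [← Real.rpow_natCast, ← Real.rpow_mul (by linarith [hgp' p])]
      refine Real.rpow_le_rpow_of_exponent_le (hgp' p) ?_
      push_cast
      linarith
    set u := (gN p : ℝ) ^ (-σ) with hu
    have h7 : u - u ^ 2 ≤ 1 - (1 + u)⁻¹ := by
      have h8 : 1 - (1 + u)⁻¹ = u / (1 + u) := by field_simp; ring
      rw [h8, le_div_iff₀ (by linarith)]
      nlinarith [pow_pos h3 3]
    linarith
  refine (Finset.sum_le_sum hlog).trans ?_
  rw [Finset.sum_add_distrib]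
  have h4 : ∑ p ∈ F, Real.log (1 + (gN p : ℝ) ^ (-σ)) ≤ Real.log (36 / (σ - 1)) := by
    rw [← Real.log_prod]
    · refine Real.log_le_log ?_ hprod
      refine Finset.prod_pos fun p _ => ?_
      positivity
    · intro p _
      positivity
  have h5 : ∑ p ∈ F, (gN p : ℝ) ^ (-(2 : ℝ)) ≤ 36 := by
    have hinj : Set.InjOn (fun p : Pr => (p.1 : G)) (F : Set Pr) :=
      fun p _ p' _ hpp => Subtype.ext hpp
    have h6 : ∑ p ∈ F, (gN p : ℝ) ^ (-(2 : ℝ)) =
        ∑ v ∈ F.image (fun p : Pr => (p.1 : G)), (nm v : ℝ) ^ (-(2 : ℝ)) :=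
      (Finset.sum_image (f := fun v : G => (nm v : ℝ) ^ (-(2 : ℝ))) hinj).symm
    rw [h6]
    refine (lattice _ ?_ 2 (by norm_num) le_rfl).trans (by norm_num)
    intro v hv
    obtain ⟨p, _, rfl⟩ := mem_image.1 hv
    exact p.2.1.ne_zero
  have h6 : Real.log (36 / (σ - 1)) = Real.log (1 / (σ - 1)) + Real.log 36 := by
    rw [← Real.log_mul (by have : 0 < σ - 1 := by linarith
                           positivity) (by norm_num)]
    congr 1
    ring
  linarith

end Pool.Agent.Y363.PP
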